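import Mathlib
import Pool.Agent.N836.SM.Stm

set_option autoImplicit false
open scoped NumberField

namespace Pool.Agent.N614.SM
open Pool.Agent.N836.SM

section
variable {K : Type} [Field K] {n : ℕ}

theorem exists_aut {x y : AlgebraicClosure K} (h : minpoly K x = minpoly K y) :
    ∃ g : AlgebraicClosure K ≃ₐ[K] AlgebraicClosure K, g x = y := by
  have h1 : IsConjRoot K y x := h.symm
  obtain ⟨σ, hσ⟩ := isConjRoot_iff_exists_algEquiv.mp h1
  exact ⟨σ, hσ⟩

theorem finite_conj (x : AlgebraicClosure K) :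
    {y : AlgebraicClosure K | minpoly K y = minpoly K x}.Finite := by
  refine ((minpoly K x).rootSet_finite (AlgebraicClosure K)).subset ?_
  intro y hy
  rw [Polynomial.mem_rootSet]
  refine ⟨minpoly.ne_zero (Algebra.IsIntegral.isIntegral x), ?_⟩
  have hy' : minpoly K y = minpoly K x := hy
  rw [← hy']
  exact minpoly.aeval K y

/-- The nonarchimedean criterion. -/
theorem nonarch (O : ValuationSubring K) (a : Fin n → K) (α : Fin n → AlgebraicClosure K)
    (h0 : ∀ i, α i ≠ 0) (hm : ∀ i j, minpoly K (α i) = minpoly K (α j))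
    (hs : ∑ i, algebraMap K (AlgebraicClosure K) (a i) * α i = 0) (i : Fin n)
    (hi : a i ≠ 0) (hlt : ∀ j, j ≠ i → a j / a i ∈ O.nonunits) : False := by
  classical
  have hsm : ∀ (x : O) (y : AlgebraicClosure K),
      x • y = algebraMap K (AlgebraicClosure K) (x : K) * y := fun x y => by
    rw [← Algebra.smul_def]; rfl
  set S : Set (AlgebraicClosure K) := {y | minpoly K y = minpoly K (α i)} with hS
  have hSf : S.Finite := finite_conj (α i)
  set M : Submodule O (AlgebraicClosure K) := Submodule.span O S with hM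
  have hle : M ≤ (IsLocalRing.maximalIdeal O) • M := by
    rw [hM, Submodule.span_le]
    intro β hβ
    obtain ⟨g, hg⟩ := exists_aut (K := K) (x := α i) (y := β) (Eq.symm hβ)
    have hsum : ∑ j, algebraMap K (AlgebraicClosure K) (a j) * g (α j) = 0 := by
      have := congrArg g hs
      simpa [map_sum, map_mul] using this
    have hai : algebraMap K (AlgebraicClosure K) (a i) ≠ 0 := by
      simpa using hi
    have hβ' : β = - ∑ j ∈ Finset.univ.erase i,
        algebraMap K (AlgebraicClosure K) (a j / a i) * g (α j) := by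
      rw [← Finset.add_sum_erase _ _ (Finset.mem_univ i), hg] at hsum
      have h1 : algebraMap K (AlgebraicClosure K) (a i) * β =
        algebraMap K (AlgebraicClosure K) (a i) *
          (- ∑ j ∈ Finset.univ.erase i,
            algebraMap K (AlgebraicClosure K) (a j / a i) * g (α j)) := by
        rw [mul_neg, Finset.mul_sum]
        have h2 : ∀ j, algebraMap K (AlgebraicClosure K) (a i) *
            (algebraMap K (AlgebraicClosure K) (a j / a i) * g (α j)) =
            algebraMap K (AlgebraicClosure K) (a j) * g (α j) := by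
          intro j
          rw [← mul_assoc, ← map_mul]
          congr 2
          field_simp
        simp only [h2]
        linear_combination hsum
      exact mul_left_cancel₀ hai h1
    show β ∈ (IsLocalRing.maximalIdeal O) • Submodule.span O S
    rw [hβ']
    refine Submodule.neg_mem _ (Submodule.sum_mem _ fun j hj => ?_)
    obtain ⟨ha, ha'⟩ := (O.mem_nonunits_iff_exists_mem_maximalIdeal).mp
      (hlt j (Finset.ne_of_mem_erase hj))
    have h3 := Submodule.smul_mem_smul (N := Submodule.span O S) ha'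
      (Submodule.subset_span (show g (α j) ∈ S from by
        show minpoly K (g (α j)) = minpoly K (α i)
        rw [minpoly.algEquiv_eq, hm j i]))
    rw [hsm] at h3
    exact h3
  have hbot := Submodule.eq_bot_of_le_smul_of_le_jacobson_bot _ M (Submodule.fg_span hSf) hle
    (IsLocalRing.maximalIdeal_le_jacobson _)
  have hmem : α i ∈ M := Submodule.subset_span (show α i ∈ S from rfl)
  rw [hbot] at hmem
  exact h0 i (by simpa using hmem)

/-- Equality case of the triangle inequality. -/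
theorem eq_case {ι : Type} (s : Finset ι) (w : ℂ) (u : ι → ℂ) (h : ι → ℝ) (hw : w ≠ 0)
    (hu : ∀ j ∈ s, ‖u j‖ ≤ h j) (hsum : ∑ j ∈ s, u j = w) (hle : ∑ j ∈ s, h j ≤ ‖w‖) :
    ∀ j ∈ s, (‖w‖ : ℂ) * u j = (h j : ℂ) * w := by
  have hwn : 0 < ‖w‖ := norm_pos_iff.mpr hw
  have hcw : (starRingEnd ℂ) w ≠ 0 := by simpa using hw
  have hb : ∀ j ∈ s, ((starRingEnd ℂ) w * u j).re ≤ ‖w‖ * h j := by
    intro j hj
    calc ((starRingEnd ℂ) w * u j).re ≤ ‖(starRingEnd ℂ) w * u j‖ := Complex.re_le_norm _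
      _ = ‖w‖ * ‖u j‖ := by rw [norm_mul, Complex.norm_conj]
      _ ≤ ‖w‖ * h j := by gcongr; exact hu j hj
  have hs1 : ∑ j ∈ s, ((starRingEnd ℂ) w * u j).re = ‖w‖ ^ 2 := by
    rw [← Complex.re_sum, ← Finset.mul_sum, hsum, mul_comm, Complex.mul_conj,
      Complex.ofReal_re, Complex.normSq_eq_norm_sq]
  have hs2 : ∑ j ∈ s, ‖w‖ * h j ≤ ‖w‖ ^ 2 := by
    rw [← Finset.mul_sum, sq]
    gcongr
  have heq : ∑ j ∈ s, ((starRingEnd ℂ) w * u j).re = ∑ j ∈ s, ‖w‖ * h j :=
    le_antisymm (Finset.sum_le_sum hb) (by rw [hs1]; exact hs2)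
  intro j hj
  have h1 := (Finset.sum_eq_sum_iff_of_le hb).mp heq j hj
  have h2 : ‖(starRingEnd ℂ) w * u j‖ ≤ ‖w‖ * h j := by
    rw [norm_mul, Complex.norm_conj]
    gcongr; exact hu j hj
  have h3 : ((starRingEnd ℂ) w * u j).re = ‖(starRingEnd ℂ) w * u j‖ :=
    le_antisymm (Complex.re_le_norm _) (by rw [h1]; exact h2)
  have h4 : ((starRingEnd ℂ) w * u j) = ((‖w‖ * h j : ℝ) : ℂ) := by
    rw [← h1]
    apply Complex.ext
    · simp
    · have h5 : |((starRingEnd ℂ) w * u j).re| = ‖(starRingEnd ℂ) w * u j‖ := by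
        rw [abs_of_nonneg]
        · exact h3
        · rw [h3]; exact norm_nonneg _
      have := Complex.abs_re_eq_norm.mp h5
      rw [this]; simp
  apply mul_left_cancel₀ hcw
  have h6 : (starRingEnd ℂ) w * w = ((‖w‖ ^ 2 : ℝ) : ℂ) := by
    rw [mul_comm, Complex.mul_conj, Complex.normSq_eq_norm_sq]
  calc (starRingEnd ℂ) w * ((‖w‖ : ℂ) * u j) = (‖w‖ : ℂ) * ((starRingEnd ℂ) w * u j) := by ring
    _ = (‖w‖ : ℂ) * ((‖w‖ * h j : ℝ) : ℂ) := by rw [h4]
    _ = (h j : ℂ) * ((‖w‖ ^ 2 : ℝ) : ℂ) := by push_cast; ring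
    _ = (h j : ℂ) * ((starRingEnd ℂ) w * w) := by rw [h6]
    _ = (starRingEnd ℂ) w * ((h j : ℂ) * w) := by ring

/-- A number mapping a finite set of nonzero numbers to itself by multiplication is a root of
unity. -/
theorem root_of_unity (T : Set ℂ) (hT : T.Finite) (c x : ℂ) (hx : x ∈ T) (hx0 : x ≠ 0)
    (hc0 : c ≠ 0) (hc : ∀ y ∈ T, c * y ∈ T) : ∃ m : ℕ, 0 < m ∧ c ^ m = 1 := by
  have hk : ∀ k : ℕ, c ^ k * x ∈ T := by
    intro k
    induction k with
    | zero => simpa using hx
    | succ k ih =>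
      have := hc _ ih
      rw [pow_succ']
      rwa [mul_assoc]
  haveI : Finite T := hT
  obtain ⟨k, l, hkl, he⟩ := Finite.exists_ne_map_eq_of_infinite
    (fun k : ℕ => (⟨c ^ k * x, hk k⟩ : T))
  have he' : c ^ k = c ^ l := mul_right_cancel₀ hx0 (by simpa using he)
  rcases lt_or_gt_of_ne hkl with h | h
  · refine ⟨l - k, by omega, ?_⟩
    have : c ^ k * c ^ (l - k) = c ^ k * 1 := by
      rw [← pow_add, Nat.add_sub_cancel' h.le, mul_one, he']
    exact mul_left_cancel₀ (pow_ne_zero _ hc0) this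
  · refine ⟨k - l, by omega, ?_⟩
    have : c ^ l * c ^ (k - l) = c ^ l * 1 := by
      rw [← pow_add, Nat.add_sub_cancel' h.le, mul_one, he']
    exact mul_left_cancel₀ (pow_ne_zero _ hc0) this

/-- The archimedean criterion. -/
theorem arch (φ : K →+* ℂ) (a : Fin n → K) (α : Fin n → AlgebraicClosure K)
    (h0 : ∀ i, α i ≠ 0) (hm : ∀ i j, minpoly K (α i) = minpoly K (α j))
    (hs : ∑ i, algebraMap K (AlgebraicClosure K) (a i) * α i = 0) (i : Fin n)
    (hi : a i ≠ 0) (hle : ∑ j ∈ Finset.univ.erase i, ‖φ (a j)‖ ≤ ‖φ (a i)‖) :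
    ∃ ω : Fin n → AlgebraicClosure K,
        (∀ i, ∃ m : ℕ, 0 < m ∧ ω i ^ m = 1) ∧
        ∑ i, algebraMap K (AlgebraicClosure K) (a i) * ω i = 0 := by
  classical
  letI : Algebra K ℂ := φ.toAlgebra
  let τ : AlgebraicClosure K →ₐ[K] ℂ := IsAlgClosed.lift
  have hτ : ∀ x : K, τ (algebraMap K (AlgebraicClosure K) x) = φ x := fun x => τ.commutes x
  have hτinj : Function.Injective τ := τ.toRingHom.injective
  set S : Set (AlgebraicClosure K) := {y | minpoly K y = minpoly K (α i)} with hS
  have hSf : S.Finite := finite_conj (α i)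
  obtain ⟨βs, hβs, hmax⟩ := Set.exists_max_image S (fun y => ‖τ y‖) hSf ⟨α i, rfl⟩
  set B : ℝ := ‖τ βs‖ with hB
  have hβ0 : βs ≠ 0 := by
    intro h
    obtain ⟨g, hg⟩ := exists_aut (K := K) (x := α i) (y := βs) (Eq.symm hβs)
    rw [h] at hg
    exact h0 i (g.injective (by rw [hg, map_zero]))
  have hτβ0 : τ βs ≠ 0 := fun h => hβ0 (hτinj (by rw [h, map_zero]))
  have hBpos : 0 < B := norm_pos_iff.mpr hτβ0
  have hφi : φ (a i) ≠ 0 := by simpa using hi
  have hφin : 0 < ‖φ (a i)‖ := norm_pos_iff.mpr hφi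
  -- the key claim
  have key : ∀ β ∈ S, ‖τ β‖ = B → ∀ g : AlgebraicClosure K ≃ₐ[K] AlgebraicClosure K,
      g (α i) = β → ∀ j, j ≠ i → (‖φ (a i)‖ : ℂ) * (φ (a j) * τ (g (α j))) =
        (‖φ (a j)‖ : ℂ) * (-(φ (a i)) * τ β) := by
    intro β hβ hβB g hg j hj
    have hsum : ∑ j, φ (a j) * τ (g (α j)) = 0 := by
      have := congrArg (fun z => τ (g z)) hs
      simpa [map_sum, map_mul, hτ] using this
    rw [← Finset.add_sum_erase _ _ (Finset.mem_univ i), hg] at hsum
    have hτβ : τ β ≠ 0 := by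
      rw [← norm_pos_iff, hβB]; exact hBpos
    have hw : -(φ (a i)) * τ β ≠ 0 := mul_ne_zero (neg_ne_zero.mpr hφi) hτβ
    have hwn : ‖-(φ (a i)) * τ β‖ = ‖φ (a i)‖ * B := by
      rw [norm_mul, norm_neg, hβB]
    have h1 := eq_case (Finset.univ.erase i) (-(φ (a i)) * τ β)
      (fun j => φ (a j) * τ (g (α j))) (fun j => ‖φ (a j)‖ * B) hw
      (by
        intro j _
        rw [norm_mul]
        gcongr
        exact hmax (g (α j)) (by
          show minpoly K (g (α j)) = minpoly K (α i)
          rw [minpoly.algEquiv_eq, hm j i]))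
      (by linear_combination hsum)
      (by
        rw [← Finset.sum_mul, hwn]
        gcongr) j (Finset.mem_erase.mpr ⟨hj, Finset.mem_univ _⟩)
    rw [hwn] at h1
    have hBc : (B : ℂ) ≠ 0 := by exact_mod_cast hBpos.ne'
    apply mul_left_cancel₀ hBc
    push_cast at h1
    linear_combination h1
  -- the constants
  set c : Fin n → ℂ := fun j => -((‖φ (a j)‖ : ℂ) * φ (a i)) / ((‖φ (a i)‖ : ℂ) * φ (a j)) with hc
  have key2 : ∀ β ∈ S, ‖τ β‖ = B → ∀ g : AlgebraicClosure K ≃ₐ[K] AlgebraicClosure K,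
      g (α i) = β → ∀ j, j ≠ i → a j ≠ 0 → τ (g (α j)) = c j * τ β := by
    intro β hβ hβB g hg j hj haj
    have h1 := key β hβ hβB g hg j hj
    have hφj : φ (a j) ≠ 0 := by simpa using haj
    have hnc : (‖φ (a i)‖ : ℂ) ≠ 0 := by exact_mod_cast hφin.ne'
    rw [hc]
    simp only
    rw [div_mul_eq_mul_div, eq_div_iff (mul_ne_zero hnc hφj)]
    linear_combination h1
  have hcn : ∀ j, a j ≠ 0 → ‖c j‖ = 1 := by
    intro j haj
    have hφj : φ (a j) ≠ 0 := by simpa using haj
    have hφjn : 0 < ‖φ (a j)‖ := norm_pos_iff.mpr hφj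
    rw [hc]
    simp only [norm_div, norm_neg, norm_mul, Complex.norm_real, norm_norm]
    field_simp
  have hroot : ∀ j, j ≠ i → a j ≠ 0 → ∃ m : ℕ, 0 < m ∧ c j ^ m = 1 := by
    intro j hj haj
    refine root_of_unity (τ '' {β | β ∈ S ∧ ‖τ β‖ = B})
      ((hSf.subset (fun x hx => hx.1)).image _) (c j) (τ βs) ⟨βs, ⟨hβs, rfl⟩, rfl⟩ hτβ0
      (fun h => by have := hcn j haj; rw [h] at this; simp at this) ?_
    rintro _ ⟨β, ⟨hβ, hβB⟩, rfl⟩
    obtain ⟨g, hg⟩ := exists_aut (K := K) (x := α i) (y := β) (Eq.symm hβ)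
    refine ⟨g (α j), ⟨?_, ?_⟩, key2 β hβ hβB g hg j hj haj⟩
    · show minpoly K (g (α j)) = minpoly K (α i)
      rw [minpoly.algEquiv_eq, hm j i]
    · rw [key2 β hβ hβB g hg j hj haj, norm_mul, hcn j haj, one_mul, hβB]
  obtain ⟨g, hg⟩ := exists_aut (K := K) (x := α i) (y := βs) (Eq.symm hβs)
  refine ⟨fun j => if a j = 0 then 1 else g (α j) / βs, ?_, ?_⟩
  · intro j
    by_cases haj : a j = 0
    · exact ⟨1, one_pos, by simp [haj]⟩
    · simp only [haj, if_false]
      by_cases hj : j = i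
      · subst hj
        exact ⟨1, one_pos, by rw [hg, div_self hβ0, one_pow]⟩
      · obtain ⟨m, hm0, hm1⟩ := hroot j hj haj
        refine ⟨m, hm0, hτinj ?_⟩
        rw [map_pow, map_div₀, key2 βs hβs rfl g hg j hj haj, mul_div_assoc, div_self hτβ0,
          mul_one, hm1, map_one]
  · have h1 : ∀ j, algebraMap K (AlgebraicClosure K) (a j) *
        (if a j = 0 then 1 else g (α j) / βs) =
        (algebraMap K (AlgebraicClosure K) (a j) * g (α j)) / βs := by
      intro j
      by_cases haj : a j = 0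
      · simp [haj]
      · simp only [haj, if_false]; ring
    simp only [h1]
    rw [← Finset.sum_div]
    have hsum : ∑ j, algebraMap K (AlgebraicClosure K) (a j) * g (α j) = 0 := by
      have := congrArg g hs
      simpa [map_sum, map_mul] using this
    rw [hsum, zero_div]

end

theorem partA : S_A := by
  classical
  intro K _ _ n a hα
  obtain ⟨α, h0, hm, hs⟩ := hα
  by_cases hall : ∀ i, (a i : K) = 0
  · right
    refine ⟨fun _ => 1, fun _ => ⟨1, one_pos, one_pow _⟩, ?_⟩
    simp [hall]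
  push_neg at hall
  by_cases harch : ∀ v : NumberField.InfinitePlace K, ∀ i : Fin n,
      v (a i : K) < ∑ j ∈ Finset.univ.erase i, v (a j : K)
  · left
    refine ⟨harch, ?_⟩
    intro v i
    by_contra hcon
    push_neg at hcon
    have hai : (a i : K) ≠ 0 := by
      intro h
      by_cases hex : ∃ j, j ≠ i
      · obtain ⟨j, hj⟩ := hex
        have := hcon j hj
        rw [h, map_zero] at this
        exact not_lt_zero' this
      · push_neg at hex
        obtain ⟨k, hk⟩ := hall
        rw [hex k] at hk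
        exact hk h
    refine nonarch (v.valuation K).valuationSubring (fun i => (a i : K)) α h0 hm hs i hai ?_
    intro j hj
    have h1 := hcon j hj
    have hvi : v.valuation K (a i : K) ≠ 0 := (Valuation.ne_zero_iff _).mpr hai
    have hlt : v.valuation K ((a j : K) / (a i : K)) < 1 := by
      rw [map_div₀]
      exact (div_lt_one₀ (zero_lt_iff.mpr hvi)).mpr h1
    rw [ValuationSubring.mem_nonunits_iff_or]
    by_cases hq : (a j : K) / (a i : K) = 0
    · exact Or.inl hq
    · right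
      rw [Valuation.mem_valuationSubring_iff, not_le, map_inv₀]
      have hq' : v.valuation K ((a j : K) / (a i : K)) ≠ 0 := (Valuation.ne_zero_iff _).mpr hq
      exact (one_lt_inv₀ (zero_lt_iff.mpr hq')).mpr hlt
  · right
    push_neg at harch
    obtain ⟨v, i, hle⟩ := harch
    have hv : ∀ x : K, v x = ‖v.embedding x‖ := fun x =>
      (NumberField.InfinitePlace.norm_embedding_eq v x).symm
    simp only [hv] at hle
    refine arch v.embedding (fun i => (a i : K)) α h0 hm hs i ?_ hle
    intro h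
    obtain ⟨k, hk⟩ := hall
    by_cases hki : k = i
    · exact hk (hki ▸ h)
    · rw [h, map_zero, norm_zero] at hle
      have h2 := (Finset.sum_eq_zero_iff_of_nonneg (fun j _ => norm_nonneg _)).mp
        (le_antisymm hle (Finset.sum_nonneg fun j _ => norm_nonneg _)) k
        (Finset.mem_erase.mpr ⟨hki, Finset.mem_univ _⟩)
      rw [norm_eq_zero, map_eq_zero] at h2
      exact hk h2

end Pool.Agent.N614.SM
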